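import Mathlib

set_option autoImplicit false

namespace Pool.Agent.Results.MP_b8a1e8_lc.Counter

/-- A grammar `(V, T, P, S)` whose letters are natural numbers. -/
structure Gram where
  V : Finset ℕ
  T : Finset ℕ
  P : Finset (List ℕ × List ℕ)
  S : ℕ
  T_sub : T ⊆ V
  S_mem : S ∈ V
  S_not : S ∉ T
  left_mem : ∀ r ∈ P, ∀ c ∈ r.1, c ∈ V
  right_mem : ∀ r ∈ P, ∀ c ∈ r.2, c ∈ V
  left_nt : ∀ r ∈ P, ∃ c ∈ r.1, c ∉ T

/-- `L(G, ϱ)` -/
def lang (G : Gram) (ϱ : List ℕ → List ℕ → Prop) : Set (List ℕ) :=
  {w | (∀ c ∈ w, c ∈ G.T) ∧ Relation.ReflTransGen ϱ [G.S] w}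

def IsMONG (G : Gram) : Prop := ∀ r ∈ G.P, r.1.length ≤ r.2.length

def IsCSG (G : Gram) : Prop :=
  ∀ r ∈ G.P, ∃ (α β γ : List ℕ) (A : ℕ), A ∉ G.T ∧ γ ≠ [] ∧
    r = (α ++ [A] ++ β, α ++ γ ++ β)

/-- the jumping step -/
def jstep (G : Gram) (s t : List ℕ) : Prop :=
  ∃ u v u' v' x y : List ℕ, (x, y) ∈ G.P ∧ u ++ v = u' ++ v' ∧
    s = u ++ x ++ v ∧ t = u' ++ y ++ v'

/-- the context-preserving jumping step -/
def bstep (G : Gram) (s t : List ℕ) : Prop :=
  ∃ (u v u' v' α β γ : List ℕ) (A : ℕ), A ∉ G.T ∧ γ ≠ [] ∧
    (α ++ [A] ++ β, α ++ γ ++ β) ∈ G.P ∧ u ++ α ++ β ++ v = u' ++ α ++ β ++ v' ∧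
    s = u ++ α ++ [A] ++ β ++ v ∧ t = u' ++ α ++ γ ++ β ++ v'

def G0 : Gram where
  V := {0, 1, 2, 3}
  T := {0, 2}
  P := {([3], [0, 1, 2]), ([0, 1, 2], [0, 0, 1, 2, 2]), ([0, 1, 2], [0, 0, 2, 2])}
  S := 3
  T_sub := by decide
  S_mem := by decide
  S_not := by decide
  left_mem := by decide
  right_mem := by decide
  left_nt := by decide

theorem split3 {α β : List ℕ} {A : ℕ} (hA : A ∉ G0.T) (h : α ++ [A] ++ β = [0, 1, 2]) :
    α = [0] ∧ A = 1 ∧ β = [2] := by
  have hA' : A ≠ 0 ∧ A ≠ 2 := by simpa [G0] using hA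
  match α, h with
  | [], h => simp at h; omega
  | [a], h => simp at h; simp [h]
  | [a, b], h => simp at h; omega
  | a :: b :: c :: l, h => simp at h

theorem inv {s : List ℕ} (h : Relation.ReflTransGen (bstep G0) [3] s) :
    s = [3] ∨ (s.Pairwise (· ≤ ·) ∧ 3 ∉ s) := by
  induction h with
  | refl => exact Or.inl rfl
  | tail _ h ih =>
    right
    obtain ⟨u, v, u', v', α, β, γ, A, hA, _, hr, he, rfl, rfl⟩ := h
    simp only [G0, Finset.mem_insert, Finset.mem_singleton, Prod.mk.injEq] at hr
    rcases hr with ⟨h1, h2⟩ | h3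
    · have hα : α = [] := by
        have := congrArg List.length h1
        simp only [List.length_append, List.length_singleton] at this
        exact List.length_eq_zero_iff.mp (by omega)
      subst hα
      simp only [List.nil_append, List.singleton_append, List.cons.injEq] at h1
      obtain ⟨rfl, rfl⟩ := h1
      rcases ih with ih | ih
      · have := congrArg List.length ih
        have h4 := congrArg List.length he
        simp only [List.length_append, List.length_singleton, List.length_nil] at this h4
        obtain rfl : u' = [] := List.length_eq_zero_iff.mp (by omega)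
        obtain rfl : v' = [] := List.length_eq_zero_iff.mp (by omega)
        simp only [List.nil_append, List.append_nil] at h2 ⊢
        subst h2
        decide
      · exact absurd (by simp) ih.2
    · have h1 : α ++ [A] ++ β = [0, 1, 2] := by rcases h3 with h3 | h3 <;> exact h3.1
      obtain ⟨rfl, rfl, rfl⟩ := split3 hA h1
      have hγ : γ = [0, 1, 2] ∨ γ = [0, 2] := by
        rcases h3 with ⟨_, h3⟩ | ⟨_, h3⟩
        · left
          have : [0] ++ γ ++ [2] = [0] ++ [0, 1, 2] ++ [2] := h3
          exact List.append_cancel_left (List.append_cancel_right this)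
        · right
          have : [0] ++ γ ++ [2] = [0] ++ [0, 2] ++ [2] := h3
          exact List.append_cancel_left (List.append_cancel_right this)
      rcases ih with ih | ⟨ih1, ih2⟩
      · have := congrArg List.length ih
        simp at this
        omega
      · have k1 : (u' ++ [0] ++ [2] ++ v').Pairwise (· ≤ ·) := by
          rw [← he]
          refine ih1.sublist ?_
          simp
        have k2 : 3 ∉ u' ++ [0] ++ [2] ++ v' := by
          rw [← he]
          simp at ih2 ⊢
          tauto
        simp only [List.append_assoc, List.pairwise_append, List.pairwise_cons, List.mem_append,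
          List.mem_cons, List.cons_append, List.nil_append] at k1 k2
        obtain ⟨a1, ⟨_, a3, a4⟩, a5⟩ := k1
        have b1 : ∀ a ∈ u', a = 0 := fun a ha => by
          have := a5 a ha 0 (by simp); omega
        have b2 : ∀ a ∈ v', 1 ≤ a := fun a ha => by
          have := a3 a ha; omega
        have b3 : ∀ l : List ℕ, ∀ a ∈ u', ∀ b ∈ l, a ≤ b := fun l a ha b _ => by
          simp [b1 a ha]
        rcases hγ with rfl | rfl
        · refine ⟨?_, by simp at k2 ⊢; tauto⟩
          simp only [List.append_assoc]
          refine List.pairwise_append.mpr ⟨a1, ?_, b3 _⟩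
          simp only [List.cons_append, List.nil_append, List.pairwise_cons, List.mem_cons]
          refine ⟨by simp, by simp, ?_, ?_, a3, a4⟩
          · rintro a (rfl | rfl | ha)
            · omega
            · omega
            · exact b2 a ha
          · rintro a (rfl | ha)
            · omega
            · exact a3 a ha
        · refine ⟨?_, by simp at k2 ⊢; tauto⟩
          simp only [List.append_assoc]
          refine List.pairwise_append.mpr ⟨a1, ?_, b3 _⟩
          simp only [List.cons_append, List.nil_append, List.pairwise_cons, List.mem_cons]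
          refine ⟨by simp, by simp, ?_, a3, a4⟩
          rintro a (rfl | ha)
          · omega
          · exact a3 a ha

theorem gen (n : ℕ) : Relation.ReflTransGen (bstep G0) [3]
    (List.replicate n 0 ++ [0] ++ [1] ++ [2] ++ List.replicate n 2) := by
  induction n with
  | zero =>
    exact Relation.ReflTransGen.single
      ⟨[], [], [], [], [], [], [0, 1, 2], 3, by decide, by simp, by decide, rfl, rfl, rfl⟩
  | succ n ih =>
    refine ih.tail ⟨_, _, List.replicate n 0, List.replicate n 2, [0], [2], [0, 1, 2], 1,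
      by decide, by simp, by decide, rfl, rfl, ?_⟩
    rw [List.replicate_succ' (a := 0), List.replicate_succ (a := 2)]
    simp

theorem result : ∃ G : Gram, IsCSG G ∧
    ∀ H : Gram, IsMONG H → lang H (jstep H) ≠ lang G (bstep G) := by
  refine ⟨G0, ?_, fun H hH hL => ?_⟩
  · intro r hr
    simp only [G0, Finset.mem_insert, Finset.mem_singleton] at hr
    rcases hr with rfl | rfl | rfl
    · exact ⟨[], [], [0, 1, 2], 3, by decide, by simp, rfl⟩
    · exact ⟨[0], [2], [0, 1, 2], 1, by decide, by simp, rfl⟩
    · exact ⟨[0], [2], [0, 2], 1, by decide, by simp, rfl⟩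
  obtain ⟨n, hn⟩ := (H.P.image fun r => r.2.length).bddAbove
  have hw : List.replicate n 0 ++ [0] ++ [0, 2] ++ [2] ++ List.replicate n 2 ∈
      lang G0 (bstep G0) := by
    refine ⟨?_, (gen n).tail ⟨_, _, _, _, [0], [2], [0, 2], 1, by decide, by simp, by decide,
      rfl, rfl, rfl⟩⟩
    intro c hc
    simp only [List.mem_append, List.mem_replicate, List.mem_cons] at hc
    simp only [G0, Finset.mem_insert, Finset.mem_singleton]
    simp at hc
    tauto
  rw [← hL] at hw
  obtain ⟨h1, h2⟩ := hw
  rcases h2.cases_tail with h2 | ⟨s, h2, u, v, u', v', x, y, hr, he, rfl, h3⟩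
  · have := congrArg List.length h2
    simp at this
    omega
  have hy : y.length ≤ n := hn (Finset.mem_coe.mpr (Finset.mem_image_of_mem _ hr))
  have hy0 : y ≠ [] := by
    obtain ⟨c, hc, _⟩ := H.left_nt _ hr
    have e1 : x.length ≤ y.length := hH _ hr
    have e2 : 0 < x.length := List.length_pos_of_mem hc
    rintro rfl
    simp only [List.length_nil] at e1
    omega
  have hc : ∀ c, c = 0 ∨ c = 2 → c ∈ u' ++ v' := by
    intro c hc
    have k := congrArg (List.count c) h3
    have k2 : y.count c ≤ y.length := List.count_le_length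
    rw [← List.count_pos_iff]
    rw [List.count_append]
    rcases hc with rfl | rfl <;> simp [List.count_replicate] at k <;> omega
  have ins : ∀ p q, p ++ q = u' ++ v' → (p ++ y ++ q).Pairwise (· ≤ ·) := by
    intro p q hpq
    have : p ++ y ++ q ∈ lang H (jstep H) := by
      refine ⟨fun c hc => h1 c ?_, h2.tail ⟨u, v, p, q, x, y, hr, he.trans hpq.symm, rfl, rfl⟩⟩
      rw [h3]
      have : c ∈ p ++ q ↔ c ∈ u' ++ v' := by rw [hpq]
      simp only [List.mem_append] at hc this ⊢
      tauto
    rw [hL] at this
    rcases inv this.2 with h | h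
    · rw [h]; simp
    · exact h.1
  obtain ⟨c, hcy⟩ := List.exists_mem_of_ne_nil y hy0
  have k1 := ins [] (u' ++ v') rfl
  have k2 := ins (u' ++ v') [] (by simp)
  rw [List.nil_append, List.pairwise_append] at k1
  rw [List.append_nil, List.pairwise_append] at k2
  have := k1.2.2 c hcy 0 (hc 0 (Or.inl rfl))
  have := k2.2.2 2 (hc 2 (Or.inr rfl)) c hcy
  omega

end Pool.Agent.Results.MP_b8a1e8_lc.Counter
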